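import Mathlib
import Pool.Agent.EdgePan.Main

set_option autoImplicit false

namespace Pool.Agent.Results.MP_43a9c1_co.LinearSaving

/-- A graph on a finite vertex type is edge-pancyclic if, for every `k` with
`3 ≤ k ≤ |V|`, each of its edges is contained in a cycle of length `k`. -/
def EdgePancyclic {V : Type} [Fintype V] (G : SimpleGraph V) : Prop :=
  ∀ k : ℕ, 3 ≤ k → k ≤ Fintype.card V → ∀ e ∈ G.edgeSet,
    ∃ (v : V) (c : G.Walk v v), c.IsCycle ∧ c.length = k ∧ e ∈ c.edges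

theorem explicit (K : ℕ) (hK : 2 ≤ K) : ∃ G : SimpleGraph (Fin (99 * K + 1)),
    G ≠ ⊥ ∧ EdgePancyclic G ∧ G.edgeSet.ncard ≤ 197 * K := by
  have : NeZero (99 * K) := ⟨by omega⟩
  have hcard : Fintype.card (Option (ZMod (99 * K))) = 99 * K + 1 := by
    rw [Fintype.card_option, ZMod.card]
  let σ : Option (ZMod (99 * K)) ≃ Fin (99 * K + 1) := Fintype.equivFinOfCardEq hcard
  let G := Pool.Agent.EdgePan.GK K
  let G' : SimpleGraph (Fin (99 * K + 1)) := G.comap σ.symm
  let f : G →g G' := ⟨σ, by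
    intro a b hab
    show G.Adj (σ.symm (σ a)) (σ.symm (σ b))
    simpa using hab⟩
  have hadj : G.Adj (Pool.Agent.EdgePan.pr K none) (Pool.Agent.EdgePan.pr K (some 0)) :=
    Pool.Agent.EdgePan.adj_of_RO (by omega) ⟨0, Or.inl rfl⟩
  refine ⟨G', ?_, ?_, ?_⟩
  · intro hbot
    obtain ⟨x, y, hxy⟩ : ∃ x y, G'.Adj x y := ⟨_, _, f.map_adj hadj⟩
    rw [hbot] at hxy
    exact hxy
  · intro k hk3 hk e he
    rw [Fintype.card_fin] at hk
    induction e with
    | _ x y =>
      rw [SimpleGraph.mem_edgeSet] at he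
      have he' : s(σ.symm x, σ.symm y) ∈ G.edgeSet := he
      obtain ⟨w, c, hc, hl, hm⟩ := Pool.Agent.EdgePan.GK_cycles hK k hk3 hk _ he'
      refine ⟨f w, c.map f, ?_, ?_, ?_⟩
      · exact hc.map (f := f) σ.injective
      · rw [SimpleGraph.Walk.length_map]; exact hl
      · rw [SimpleGraph.Walk.edges_map, List.mem_map]
        refine ⟨_, hm, ?_⟩
        show Sym2.map σ s(σ.symm x, σ.symm y) = s(x, y)
        simp
  · have hsub : G'.edgeSet ⊆ (Sym2.map σ) '' G.edgeSet := by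
      intro e he
      induction e with
      | _ x y =>
        rw [SimpleGraph.mem_edgeSet] at he
        refine ⟨s(σ.symm x, σ.symm y), he, ?_⟩
        simp
    have h1 : G'.edgeSet.ncard ≤ ((Sym2.map σ) '' G.edgeSet).ncard :=
      Set.ncard_le_ncard hsub (Set.toFinite _)
    have h2 : ((Sym2.map σ) '' G.edgeSet).ncard ≤ G.edgeSet.ncard :=
      Set.ncard_image_le (Set.toFinite _)
    exact (h1.trans h2).trans (Pool.Agent.EdgePan.ncard_edgeSet (by omega))

/-- For every `K ≥ 2` there is an edge-pancyclic graph (with at least one edge) on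
`n = 99 K + 1` vertices with fewer than `(2 - 1/99) n` edges. -/
theorem result : ∀ K : ℕ, 2 ≤ K → ∃ G : SimpleGraph (Fin (99 * K + 1)),
    G ≠ ⊥ ∧ EdgePancyclic G ∧
      (G.edgeSet.ncard : ℝ) < (2 - 1 / 99) * ((99 * K + 1 : ℕ) : ℝ) := by
  intro K hK
  obtain ⟨G, h1, h2, h3⟩ := explicit K hK
  refine ⟨G, h1, h2, ?_⟩
  have h4 : (G.edgeSet.ncard : ℝ) ≤ 197 * (K : ℝ) := by exact_mod_cast h3
  refine lt_of_le_of_lt h4 ?_
  push_cast
  have : (0 : ℝ) ≤ K := Nat.cast_nonneg _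
  nlinarith

end Pool.Agent.Results.MP_43a9c1_co.LinearSaving
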